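import Mathlib

namespace Pool.Agent.Results.MP_5e3b67_co.NoLocalLipschitzInverse

/-- The cube `{0,1}^n`. -/
abbrev Cube (n : ℕ) : Type := Fin n → ZMod 2

/-- `φ` is a mapping from `DIC_n` to `XOR_n`: it is a bijection and the parity of `φ x` is the
first coordinate of `x`. -/
def IsMapping {n : ℕ} (hn : 0 < n) (φ : Cube n → Cube n) : Prop :=
  Function.Bijective φ ∧ ∀ x, ∑ i, φ x i = x ⟨0, hn⟩

/-- `φ` is `K`-local: every output coordinate depends on at most `K` input coordinates. -/
def IsLocal {n : ℕ} (K : ℕ) (φ : Cube n → Cube n) : Prop :=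
  ∀ i, ∃ S : Finset (Fin n), S.card ≤ K ∧ ∀ x x' : Cube n, (∀ j ∈ S, x j = x' j) → φ x i = φ x' i

/-- The inverse of `φ` is `L`-Lipschitz for the Hamming distance. -/
def InverseLipschitz {n : ℕ} (L : ℕ) (φ : Cube n → Cube n) : Prop :=
  ∀ x x' : Cube n, hammingDist x x' ≤ L * hammingDist (φ x) (φ x')

section

variable {n : ℕ} (hn : 0 < n) {K L : ℕ} {φ : Cube n → Cube n}

/-- flip the coordinates in `E` -/
def flip (x : Cube n) (E : Finset (Fin n)) : Cube n := fun k => if k ∈ E then x k + 1 else x k

lemma add_one_ne (a : ZMod 2) : a + 1 ≠ a := by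
  revert a
  decide

lemma ne_iff_add_one {a b : ZMod 2} : a ≠ b ↔ a = b + 1 := by
  revert a b
  decide

/-- the core recursion -/
lemma core (hφ : IsMapping hn φ) (hloc : IsLocal K φ) (x : Cube n)
    (D : Fin n → Finset (Fin n)) (hD : ∀ j i, φ (flip x (D j)) i ≠ φ x i ↔ i = j)
    (hcard : ∀ j, (D j).card ≤ L) :
    ∀ (t : ℕ) (E : Finset (Fin n)), ⟨0, hn⟩ ∈ E → E.card + t = L + 1 →
      (Finset.univ.filter fun j => E ⊆ D j).card ≤ ∑ s ∈ Finset.range t, (K - 1) ^ s := by
  intro t
  induction t with
  | zero =>
    intro E _ hE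
    rw [Finset.range_zero, Finset.sum_empty, Nat.le_zero, Finset.card_eq_zero,
      Finset.filter_eq_empty_iff]
    intro j _ hj
    have := Finset.card_le_card hj
    have := hcard j
    omega
  | succ t ih =>
    intro E h0 hE
    -- an output that changes
    obtain ⟨i, hi⟩ : ∃ i, φ (flip x E) i ≠ φ x i := by
      by_contra hcon
      push Not at hcon
      have h1 : φ (flip x E) = φ x := funext hcon
      have h2 := hφ.2 (flip x E)
      rw [h1, hφ.2 x] at h2
      simp only [flip, h0, if_true] at h2
      exact add_one_ne _ h2.symm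
    obtain ⟨S, hS, hdep⟩ := hloc i
    -- `S` meets `E`
    have hmeet : (S ∩ E).Nonempty := by
      by_contra hcon
      rw [Finset.not_nonempty_iff_eq_empty] at hcon
      apply hi
      apply hdep
      intro k hk
      have : k ∉ E := fun hkE => by
        have : k ∈ S ∩ E := Finset.mem_inter.mpr ⟨hk, hkE⟩
        rw [hcon] at this
        exact Finset.notMem_empty k this
      simp [flip, this]
    have hcardS : (S \ E).card ≤ K - 1 := by
      have h1 := Finset.card_sdiff_add_card_inter S E
      have h2 := Finset.card_pos.mpr hmeet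
      omega
    have hsub : (Finset.univ.filter fun j => E ⊆ D j) ⊆
        insert i ((S \ E).biUnion fun k => Finset.univ.filter fun j => insert k E ⊆ D j) := by
      intro j hj
      rw [Finset.mem_filter] at hj
      by_cases hij : j = i
      · rw [hij]
        exact Finset.mem_insert_self _ _
      · apply Finset.mem_insert_of_mem
        have h1 : φ (flip x (D j)) i = φ x i := by
          by_contra hcon
          exact hij ((hD j i).mp hcon).symm
        have h2 : ∃ k ∈ S, flip x (D j) k ≠ flip x E k := by
          by_contra hcon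
          push Not at hcon
          exact hi ((hdep _ _ hcon).symm.trans h1)
        obtain ⟨k, hkS, hk⟩ := h2
        have hkE : k ∉ E := by
          intro hkE
          apply hk
          simp [flip, hkE, hj.2 hkE]
        have hkD : k ∈ D j := by
          by_contra hkD
          apply hk
          simp [flip, hkE, hkD]
        rw [Finset.mem_biUnion]
        exact ⟨k, Finset.mem_sdiff.mpr ⟨hkS, hkE⟩, Finset.mem_filter.mpr ⟨Finset.mem_univ _,
          Finset.insert_subset hkD hj.2⟩⟩
    calc (Finset.univ.filter fun j => E ⊆ D j).card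
        ≤ (insert i ((S \ E).biUnion fun k =>
            Finset.univ.filter fun j => insert k E ⊆ D j)).card := Finset.card_le_card hsub
      _ ≤ ((S \ E).biUnion fun k => Finset.univ.filter fun j => insert k E ⊆ D j).card + 1 :=
          Finset.card_insert_le _ _
      _ ≤ (S \ E).card * (∑ s ∈ Finset.range t, (K - 1) ^ s) + 1 := by
          apply Nat.add_le_add_right
          apply Finset.card_biUnion_le_card_mul
          intro k hk
          apply ih
          · exact Finset.mem_insert_of_mem h0
          · rw [Finset.card_insert_of_notMem (Finset.mem_sdiff.mp hk).2]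
            omega
      _ ≤ (K - 1) * (∑ s ∈ Finset.range t, (K - 1) ^ s) + 1 :=
          Nat.add_le_add_right (Nat.mul_le_mul_right _ hcardS) _
      _ = ∑ s ∈ Finset.range (t + 1), (K - 1) ^ s := by
          rw [Finset.sum_range_succ', Finset.mul_sum, pow_zero]
          congr 1
          exact Finset.sum_congr rfl fun s _ => by rw [pow_succ']

theorem bound (hφ : IsMapping hn φ) (hloc : IsLocal K φ) (hlip : InverseLipschitz L φ) :
    n ≤ ∑ s ∈ Finset.range L, (K - 1) ^ s := by
  classical
  set x : Cube n := 0
  -- the preimages of the neighbours of `φ x`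
  choose z hz using fun j : Fin n => hφ.1.2 (flip (φ x) {j})
  set D : Fin n → Finset (Fin n) := fun j => Finset.univ.filter fun k => z j k ≠ x k with hDdef
  have hzD : ∀ j, flip x (D j) = z j := by
    intro j
    funext k
    by_cases hk : z j k = x k
    · simp [flip, hDdef, hk]
    · simp only [flip, hDdef, Finset.mem_filter, Finset.mem_univ, true_and]
      rw [if_pos hk]
      exact (ne_iff_add_one.mp hk).symm
  have hD : ∀ j i, φ (flip x (D j)) i ≠ φ x i ↔ i = j := by
    intro j i
    rw [hzD, hz]
    by_cases h : i = j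
    · simp [flip, h]
    · simp [flip, h]
  have hcard : ∀ j, (D j).card ≤ L := by
    intro j
    have h1 := hlip (z j) x
    rw [hz] at h1
    have h2 : hammingDist (flip (φ x) {j}) (φ x) = 1 := by
      unfold hammingDist
      rw [Finset.card_eq_one]
      refine ⟨j, ?_⟩
      ext i
      by_cases h : i = j
      · simp [flip, h]
      · simp [flip, h]
    rw [h2, mul_one] at h1
    exact h1
  have h0 : ∀ j, (⟨0, hn⟩ : Fin n) ∈ D j := by
    intro j
    rw [hDdef, Finset.mem_filter]
    refine ⟨Finset.mem_univ _, ?_⟩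
    rw [← hφ.2 (z j), ← hφ.2 x, hz]
    have h1 : ∑ i, flip (φ x) {j} i = ∑ i, φ x i + 1 := by
      have h2 : ∀ i, flip (φ x) {j} i = φ x i + if i = j then 1 else 0 := by
        intro i
        by_cases h : i = j <;> simp [flip, h]
      rw [Finset.sum_congr rfl fun i _ => h2 i, Finset.sum_add_distrib]
      simp
    rw [h1]
    exact add_one_ne _
  have h1 := core hn hφ hloc x D hD hcard L {⟨0, hn⟩} (Finset.mem_singleton_self _) (by
    rw [Finset.card_singleton, add_comm])
  have h2 : (Finset.univ.filter fun j => {(⟨0, hn⟩ : Fin n)} ⊆ D j) = Finset.univ := by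
    rw [Finset.filter_true_of_mem]
    intro j _
    exact Finset.singleton_subset_iff.mpr (h0 j)
  rw [h2, Finset.card_univ, Fintype.card_fin] at h1
  exact h1

end

/-- A `K`-local mapping from `DIC_n` to `XOR_n` with `L`-Lipschitz inverse exists only if
`n ≤ 1 + (K-1) + ⋯ + (K-1)^(L-1)`. In particular there are no constants `K`, `L` for which such
mappings exist for all `n`. -/
theorem result :
    (∀ (K L n : ℕ) (hn : 0 < n) (φ : Cube n → Cube n), IsMapping hn φ → IsLocal K φ →
      InverseLipschitz L φ → n ≤ ∑ s ∈ Finset.range L, (K - 1) ^ s) ∧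
    ¬ ∃ K L : ℕ, ∀ (n : ℕ) (hn : 0 < n), ∃ φ : Cube n → Cube n,
      IsMapping hn φ ∧ IsLocal K φ ∧ InverseLipschitz L φ := by
  refine ⟨fun K L n hn φ h1 h2 h3 => bound hn h1 h2 h3, ?_⟩
  rintro ⟨K, L, h⟩
  obtain ⟨φ, h1, h2, h3⟩ := h ((∑ s ∈ Finset.range L, (K - 1) ^ s) + 1) (Nat.succ_pos _)
  have := bound _ h1 h2 h3
  omega

end Pool.Agent.Results.MP_5e3b67_co.NoLocalLipschitzInverse
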